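import Mathlib.LinearAlgebra.DFinsupp
import Mathlib.SetTheory.Cardinal.Finsupp
import Mathlib.LinearAlgebra.Basis.VectorSpace
import Mathlib.Algebra.Notation.Lemmas
import Mathlib.Algebra.Field.ZMod
import Mathlib.Data.Finsupp.Encodable
import Mathlib.Analysis.Real.Cardinality

set_option autoImplicit false
set_option maxSynthPendingDepth 3

open Cardinal Set

namespace Pool.Agent.MP_23f360_gt

/-- The two-element field. -/
abbrev F : Type := ZMod 2

/-- The countable Boolean group. -/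
abbrev E : Type := ℕ →₀ F

/-- The direct sum of continuum many copies of `E`. -/
abbrev W : Type := ℝ →₀ E

/-- The underlying group of the example. -/
abbrev G : Type := E × W

/-- Linear functionals on `E`. -/
abbrev Om : Type := E →ₗ[F] F

theorem span_small {T : Type} (f : T → Om) (hT : #T < 𝔠) :
    #(Submodule.span F (range f)) < 𝔠 := by
  classical
  let g : T ⊕ ℕ → Om := Sum.elim f (fun _ => 0)
  have h1 : (Submodule.span F (range f) : Set Om) ⊆ range (Finsupp.linearCombination F g) := by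
    have : Submodule.span F (range f) ≤ LinearMap.range (Finsupp.linearCombination F g) := by
      rw [Finsupp.range_linearCombination]
      apply Submodule.span_mono
      rintro _ ⟨t, rfl⟩
      exact ⟨Sum.inl t, rfl⟩
    intro x hx
    exact this hx
  have h2 : #(range (Finsupp.linearCombination F g)) ≤ #((T ⊕ ℕ) →₀ F) := mk_range_le
  have h3 : #((T ⊕ ℕ) →₀ F) = max #(T ⊕ ℕ) #F := by
    rw [mk_finsupp_of_infinite]
  have h4 : #(T ⊕ ℕ) < 𝔠 := by
    simp only [mk_sum, lift_id, mk_nat]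
    exact add_lt_of_lt aleph0_le_continuum hT aleph0_lt_continuum
  have h5 : #F < 𝔠 := lt_of_lt_of_le (lt_aleph0_of_finite F) aleph0_le_continuum
  calc #(Submodule.span F (range f)) ≤ #(range (Finsupp.linearCombination F g)) :=
        mk_le_mk_of_subset h1
    _ ≤ max #(T ⊕ ℕ) #F := h3 ▸ h2
    _ < 𝔠 := max_lt h4 h5

/-- There are continuum many functionals taking the value one at a given nonzero vector. -/
theorem exists_fun_notMem (e : E) (he : e ≠ 0) (V : Submodule F Om) (hV : #V < 𝔠) :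
    ∃ a : Om, a e ≠ 0 ∧ a ∉ V := by
  classical
  by_contra hcon
  push Not at hcon
  obtain ⟨n, hn⟩ : ∃ n, e n ≠ 0 := by
    by_contra h
    push Not at h
    exact he (Finsupp.ext h)
  let a0 : Om := Finsupp.lapply n
  have ha0 : a0 e ≠ 0 := hn
  have hall : ∀ a : Om, a ∈ V := by
    intro a
    by_cases h : a e = 0
    · have h1 : (a + a0) e ≠ 0 := by simpa [h] using ha0
      have := V.sub_mem (hcon _ h1) (hcon _ ha0)
      simpa using this
    · exact hcon a h
  have h1 : #Om ≤ #V := mk_le_of_injective (f := fun a => (⟨a, hall a⟩ : V))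
    (fun a b hab => by simpa using hab)
  have h2 : #(ℕ → F) ≤ #Om := by
    refine mk_le_of_injective (f := fun x => Finsupp.linearCombination F x) ?_
    intro x y hxy
    funext k
    have := congrArg (fun (l : Om) => l (Finsupp.single k 1)) hxy
    simpa using this
  have h3 : #(ℕ → F) = 𝔠 := by
    simp [← two_power_aleph0]
  exact absurd (h3 ▸ h2.trans h1) (not_le.mpr hV)

/-- A task: a countably supported linear map and a nonzero vector. -/
def Good (τ : W →ₗ[F] E) : Prop :=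
  ∃ s : ℕ → ℝ, ∀ γ : ℝ, γ ∉ range s → ∀ u : E, τ (Finsupp.single γ u) = 0

theorem task_left (d : ℕ → G)
    (hd : ∀ x ∈ Submodule.span F (range d), x.2 = 0 → x.1 = 0) :
    ∃ τ : W →ₗ[F] E, Good τ ∧ ∀ n, τ (d n).2 = (d n).1 := by
  classical
  set U : Submodule F G := Submodule.span F (range d) with hU
  let p : U →ₗ[F] W := (LinearMap.snd F E W).comp U.subtype
  have hp : LinearMap.ker p = ⊥ := by
    rw [LinearMap.ker_eq_bot']
    intro x hx
    have h2 : (x : G).2 = 0 := hx
    have h1 := hd x x.2 h2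
    exact Subtype.ext (Prod.ext h1 h2)
  obtain ⟨q, hq⟩ := p.exists_leftInverse_of_injective hp
  let τ0 : W →ₗ[F] E := ((LinearMap.fst F E W).comp U.subtype).comp q
  have hτ0 : ∀ n, τ0 (d n).2 = (d n).1 := by
    intro n
    have hm : d n ∈ U := Submodule.subset_span ⟨n, rfl⟩
    have := congrArg (fun l => l ⟨d n, hm⟩) hq
    simp only [LinearMap.comp_apply, LinearMap.id_apply] at this
    have h2 : p ⟨d n, hm⟩ = (d n).2 := rfl
    rw [h2] at this
    simp [τ0, this]
  let B : Set ℝ := insert 0 (⋃ n, ((d n).2.support : Set ℝ))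
  have hB : B.Countable :=
    (countable_iUnion fun n => (d n).2.support.countable_toSet).insert 0
  obtain ⟨s, hs⟩ := hB.exists_eq_range ⟨0, mem_insert _ _⟩
  let π : W →ₗ[F] W := Finsupp.lsum F (fun γ => if γ ∈ B then Finsupp.lsingle γ else 0)
  refine ⟨τ0.comp π, ⟨s, ?_⟩, ?_⟩
  · intro γ hγ u
    rw [← hs] at hγ
    simp [π, hγ]
  · intro n
    have : π (d n).2 = (d n).2 := by
      simp only [π, Finsupp.coe_lsum]
      conv_rhs => rw [← Finsupp.sum_single (d n).2]
      apply Finsupp.sum_congr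
      intro γ hγ
      have : γ ∈ B := mem_insert_of_mem _ (mem_iUnion.2 ⟨n, hγ⟩)
      simp [this]
    simp [this, hτ0]

theorem task_right (g : G) (hg : g ≠ 0) :
    ∃ τ : W →ₗ[F] E, Good τ ∧ g.1 - τ g.2 ≠ 0 := by
  classical
  by_cases h1 : g.1 = 0
  · have h2 : g.2 ≠ 0 := fun h => hg (Prod.ext h1 h)
    obtain ⟨γ, hγ⟩ : ∃ γ, g.2 γ ≠ 0 := by
      by_contra h
      push Not at h
      exact h2 (Finsupp.ext h)
    refine ⟨Finsupp.lapply γ, ⟨fun _ => γ, ?_⟩, ?_⟩
    · intro γ' hγ' u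
      have : γ' ≠ γ := fun h => hγ' ⟨0, h.symm⟩
      simp [this]
    · simpa [h1] using hγ
  · exact ⟨0, ⟨fun _ => 0, fun _ _ _ => rfl⟩, by simpa using h1⟩

/-- The index set of the tasks. -/
abbrev I : Type := (ℕ → G) ⊕ G

theorem mk_E : #E = ℵ₀ := by
  simp [E]

theorem mk_G_le : #G ≤ 𝔠 := by
  have hW : #W = 𝔠 := by
    rw [mk_finsupp_of_infinite, mk_real, mk_E, max_eq_left aleph0_le_continuum]
  simp [G, hW]

theorem mk_I_le : #I ≤ 𝔠 := by
  have h1 : #(ℕ → G) ≤ 𝔠 := by
    rw [← power_def, mk_nat]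
    calc #G ^ ℵ₀ ≤ 𝔠 ^ ℵ₀ := power_le_power_right mk_G_le
      _ = 𝔠 := continuum_power_aleph0
  simp only [I, mk_sum, lift_id]
  calc _ ≤ 𝔠 + 𝔠 := add_le_add h1 mk_G_le
    _ = 𝔠 := continuum_add_self

theorem exists_tasks : ∃ (τ : I → (W →ₗ[F] E)) (e : I → E), (∀ i, Good (τ i)) ∧ (∀ i, e i ≠ 0) ∧
    (∀ d : ℕ → G, (∀ x ∈ Submodule.span F (range d), x.2 = 0 → x.1 = 0) →
      ∀ n, τ (Sum.inl d) (d n).2 = (d n).1) ∧
    (∀ g : G, g ≠ 0 → e (Sum.inr g) = g.1 - τ (Sum.inr g) g.2) := by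
  classical
  have e1 : (Finsupp.single 0 1 : E) ≠ 0 := by simp
  have h0 : Good 0 := ⟨fun _ => 0, fun _ _ _ => rfl⟩
  have hl : ∀ d : ℕ → G, ∃ τ : W →ₗ[F] E, Good τ ∧
      ((∀ x ∈ Submodule.span F (range d), x.2 = 0 → x.1 = 0) → ∀ n, τ (d n).2 = (d n).1) := by
    intro d
    by_cases hd : ∀ x ∈ Submodule.span F (range d), x.2 = 0 → x.1 = 0
    · obtain ⟨τ, h1, h2⟩ := task_left d hd
      exact ⟨τ, h1, fun _ => h2⟩
    · exact ⟨0, h0, fun h => absurd h hd⟩
  have hr : ∀ g : G, ∃ (τ : W →ₗ[F] E) (e : E), Good τ ∧ e ≠ 0 ∧ (g ≠ 0 → e = g.1 - τ g.2) := by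
    intro g
    by_cases hg : g = 0
    · exact ⟨0, _, h0, e1, fun h => absurd hg h⟩
    · obtain ⟨τ, h1, h2⟩ := task_right g hg
      exact ⟨τ, _, h1, h2, fun _ => rfl⟩
  choose τl hl1 hl2 using hl
  choose τr er hr1 hr2 hr3 using hr
  refine ⟨Sum.elim τl τr, Sum.elim (fun _ => Finsupp.single 0 1) er, ?_, ?_, ?_, ?_⟩
  · rintro (d | g)
    · exact hl1 d
    · exact hr1 g
  · rintro (d | g)
    · exact e1
    · exact hr2 g
  · exact fun d hd => hl2 d hd
  · exact fun g hg => hr3 g hg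

/-- Transfinite recursion: each new functional avoids the span of everything produced earlier. -/
theorem exists_rec (e : I → E) (he : ∀ i, e i ≠ 0) (c : I → Om → ℕ → Om) :
    ∃ (r : I → I → Prop) (_ : IsWellOrder I r) (a : I → Om), ∀ i, a i (e i) ≠ 0 ∧
      a i ∉ Submodule.span F (range (fun x : {j // r j i} × ℕ => c x.1.1 (a x.1.1) x.2)) := by
  classical
  obtain ⟨r, wo, hr⟩ := Cardinal.exists_ord_eq I
  have hsmall : ∀ i, #({j // r j i} × ℕ) < 𝔠 := by
    intro i
    have h1 : #{j // r j i} < 𝔠 := by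
      have := card_typein_lt (r := r) i hr
      rw [Ordinal.card_typein] at this
      exact lt_of_lt_of_le this mk_I_le
    simp only [mk_prod, lift_id, mk_nat]
    exact mul_lt_of_lt aleph0_le_continuum h1 aleph0_lt_continuum
  have hstep : ∀ (i : I) (f : (j : I) → r j i → Om), ∃ a : Om, a (e i) ≠ 0 ∧
      a ∉ Submodule.span F (range (fun x : {j // r j i} × ℕ => c x.1.1 (f x.1.1 x.1.2) x.2)) :=
    fun i f => exists_fun_notMem (e i) (he i) _ (span_small _ (hsmall i))
  choose step hstep1 hstep2 using hstep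
  let a : I → Om := wo.wf.fix step
  have ha : ∀ i, a i = step i (fun j _ => a j) := fun i => wo.wf.fix_eq step i
  refine ⟨r, wo, a, fun i => ⟨?_, ?_⟩⟩
  · rw [ha i]; exact hstep1 i _
  · have := hstep2 i (fun j _ => a j)
    rwa [← ha i] at this

end Pool.Agent.MP_23f360_gt
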