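import Pool.Agent.MP_23f360_gt.Basic

set_option autoImplicit false
set_option maxSynthPendingDepth 3

open Cardinal Set Topology

namespace Pool.Agent.MP_23f360_gt

/-- The family of characters with all the needed properties. -/
theorem exists_chars : ∃ z : I → (G →ₗ[F] F),
    (∀ g : G, g ≠ 0 → ∃ i, z i g ≠ 0) ∧
    (∀ d : ℕ → G, (∀ x ∈ Submodule.span F (range d), x.2 = 0 → x.1 = 0) →
      ∃ i, (∃ g, z i g ≠ 0) ∧ ∀ n, z i (d n) = 0) ∧
    (∀ (γ : ℝ) (J : Finset I) (p q : I → F),
      (∀ u v : E, ∑ i ∈ J, (p i * z i (u + v, Finsupp.single γ u) +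
        q i * z i (u, Finsupp.single γ v)) = 0) → ∀ i ∈ J, p i = 0 ∧ q i = 0) := by
  classical
  obtain ⟨τ, e, hτ, he, hl, hr⟩ := exists_tasks
  choose s hs using hτ
  let c : I → Om → ℕ → Om := fun i a n =>
    Nat.casesOn n a (fun m => (a.comp (τ i)).comp (Finsupp.lsingle (s i m)))
  obtain ⟨r, wo, a, ha⟩ := exists_rec e he c
  let z : I → (G →ₗ[F] F) := fun i =>
    (a i).comp (LinearMap.fst F E W - (τ i).comp (LinearMap.snd F E W))
  have hz : ∀ i (g : G), z i g = a i (g.1 - τ i g.2) := fun i g => rfl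
  refine ⟨z, ?_, ?_, ?_⟩
  · intro g hg
    refine ⟨Sum.inr g, ?_⟩
    rw [hz, ← hr g hg]
    exact (ha _).1
  · intro d hd
    refine ⟨Sum.inl d, ⟨(e (Sum.inl d), 0), ?_⟩, fun n => ?_⟩
    · rw [hz]
      simpa using (ha _).1
    · rw [hz, hl d hd n]
      simp
  · intro γ J p q hpq
    by_contra hcon
    let J' := J.filter (fun i => ¬ (p i = 0 ∧ q i = 0))
    have hne : J'.Nonempty := by
      by_contra h
      apply hcon
      intro i hi
      by_contra h2
      exact h ⟨i, Finset.mem_filter.2 ⟨hi, h2⟩⟩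
    let _ : LinearOrder I := linearOrderOfSTO r
    let m := J'.max' hne
    have hm : m ∈ J' := J'.max'_mem hne
    have hlt : ∀ i ∈ J', i ≠ m → r i m := by
      intro i hi him
      exact lt_of_le_of_ne (J'.le_max' i hi) him
    let V : Submodule F Om :=
      Submodule.span F (range (fun x : {j // r j m} × ℕ => c x.1.1 (a x.1.1) x.2))
    let w : I → Om := fun i => ((a i).comp (τ i)).comp (Finsupp.lsingle γ)
    have haV : ∀ j, r j m → a j ∈ V := fun j hj => Submodule.subset_span ⟨(⟨j, hj⟩, 0), rfl⟩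
    have hwV : ∀ j, r j m → w j ∈ V := by
      intro j hj
      by_cases hγ : γ ∈ range (s j)
      · obtain ⟨k, rfl⟩ := hγ
        exact Submodule.subset_span ⟨(⟨j, hj⟩, k + 1), rfl⟩
      · have : w j = 0 := by
          ext1 n
          ext1
          simp [w, hs j γ hγ]
        rw [this]
        exact V.zero_mem
    have key : ∀ (x y : I → F), (∀ i ∈ J, (p i = 0 ∧ q i = 0) → x i = 0 ∧ y i = 0) →
        ∑ i ∈ J, (x i • a i - y i • w i) = 0 → x m • a m - y m • w m ∈ V := by
      intro x y hxy hsum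
      have hmJ : m ∈ J := (Finset.mem_filter.1 hm).1
      rw [← Finset.add_sum_erase J _ hmJ] at hsum
      have h1 : ∑ i ∈ J.erase m, (x i • a i - y i • w i) ∈ V := by
        apply V.sum_mem
        intro i hi
        obtain ⟨him, hiJ⟩ := Finset.mem_erase.1 hi
        by_cases h0 : p i = 0 ∧ q i = 0
        · obtain ⟨hx, hy⟩ := hxy i hiJ h0
          simp [hx, hy]
        · have := hlt i (Finset.mem_filter.2 ⟨hiJ, h0⟩) him
          exact V.sub_mem (V.smul_mem _ (haV i this)) (V.smul_mem _ (hwV i this))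
      rw [eq_neg_of_add_eq_zero_left hsum]
      exact V.neg_mem h1
    have k1 : p m • a m - q m • w m ∈ V := by
      apply key p q (fun i _ h => h)
      apply LinearMap.ext
      intro v
      have := hpq 0 v
      simp only [hz] at this
      simp only [LinearMap.coe_sum, Finset.sum_apply, LinearMap.zero_apply]
      rw [← this]
      apply Finset.sum_congr rfl
      intro i _
      simp only [w, LinearMap.sub_apply, LinearMap.smul_apply, LinearMap.comp_apply,
        Finsupp.lsingle_apply, smul_eq_mul, map_sub, zero_add, Finsupp.single_zero, map_zero]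
      ring
    have k2 : (p m + q m) • a m - p m • w m ∈ V := by
      apply key (fun i => p i + q i) p (fun i _ h => by simp [h.1, h.2])
      apply LinearMap.ext
      intro u
      have := hpq u 0
      simp only [hz] at this
      simp only [LinearMap.coe_sum, Finset.sum_apply, LinearMap.zero_apply]
      rw [← this]
      apply Finset.sum_congr rfl
      intro i _
      simp [w]
      ring
    have hpq0 : ¬ (p m = 0 ∧ q m = 0) := (Finset.mem_filter.1 hm).2
    have hone : ∀ x y : F, ¬ (x = 0 ∧ y = 0) → x * x - y * (x + y) = 1 := by decide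
    have k3 := V.sub_mem (V.smul_mem (p m) k1) (V.smul_mem (q m) k2)
    have k4 : p m • (p m • a m - q m • w m) - q m • ((p m + q m) • a m - p m • w m)
        = (p m * p m - q m * (p m + q m)) • a m := by
      module
    rw [k4, hone _ _ hpq0, one_smul] at k3
    exact (ha m).2 k3

/-- The countable subgroup of the square attached to a coordinate. -/
noncomputable def delta (γ : ℝ) : (E × E) →ₗ[F] (G × G) where
  toFun x := ((x.1 + x.2, Finsupp.single γ x.1), (x.1, Finsupp.single γ x.2))
  map_add' x y := by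
    simp only [Prod.fst_add, Prod.snd_add, Finsupp.single_add, Prod.mk_add_mk]
    congr 2
    abel
  map_smul' k x := by
    simp [smul_add]

theorem surj_finite (z : I → (G →ₗ[F] F)) (γ : ℝ)
    (hz : ∀ (J : Finset I) (p q : I → F),
      (∀ u v : E, ∑ i ∈ J, (p i * z i (u + v, Finsupp.single γ u) +
        q i * z i (u, Finsupp.single γ v)) = 0) → ∀ i ∈ J, p i = 0 ∧ q i = 0)
    (J : Finset I) (x y : I → F) :
    ∃ t : E × E, ∀ i ∈ J, z i (delta γ t).1 = x i ∧ z i (delta γ t).2 = y i := by
  classical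
  let Φ : (E × E) →ₗ[F] (J ⊕ J → F) := LinearMap.pi (fun k => Sum.casesOn k
    (fun i => ((z i).comp (LinearMap.fst F G G)).comp (delta γ))
    (fun i => ((z i).comp (LinearMap.snd F G G)).comp (delta γ)))
  have hΦ : LinearMap.range Φ = ⊤ := by
    by_contra hne
    obtain ⟨f, hf0, hf⟩ := Submodule.exists_le_ker_of_lt_top _ (lt_top_iff_ne_top.2 hne)
    apply hf0
    obtain ⟨cf, hcf'⟩ : ∃ cf : J ⊕ J → F, ∀ w, f w = ∑ k, w k • cf k :=
      ⟨_, fun w => LinearMap.pi_apply_eq_sum_univ f w⟩
    let p : I → F := fun i => if h : i ∈ J then cf (Sum.inl ⟨i, h⟩) else 0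
    let q : I → F := fun i => if h : i ∈ J then cf (Sum.inr ⟨i, h⟩) else 0
    have h0 := hz J p q (by
      intro u v
      have h1 : f (Φ (u, v)) = 0 := hf ⟨(u, v), rfl⟩
      rw [hcf', Fintype.sum_sum_type, ← Finset.sum_add_distrib] at h1
      rw [← h1, ← Finset.sum_coe_sort J]
      apply Finset.sum_congr rfl
      intro i _
      simp only [p, q, i.2, dif_pos, smul_eq_mul]
      rw [mul_comm (cf _), mul_comm (cf _)]
      rfl)
    have hcf : ∀ k, cf k = 0 := by
      rintro (i | i)
      · simpa [p, i.2] using (h0 i i.2).1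
      · simpa [q, i.2] using (h0 i i.2).2
    apply LinearMap.ext
    intro w
    rw [hcf']
    apply Finset.sum_eq_zero
    intro k _
    simp [hcf k]
  obtain ⟨t, ht⟩ := LinearMap.range_eq_top.1 hΦ (Sum.elim (fun i => x i) (fun i => y i))
  exact ⟨t, fun i hi => ⟨congrFun ht (Sum.inl ⟨i, hi⟩), congrFun ht (Sum.inr ⟨i, hi⟩)⟩⟩

theorem exists_free_coord (S : AddSubgroup (G × G)) (hS : #S < 𝔠) :
    ∃ γ : ℝ, ∀ s ∈ S, s.1.2 γ = 0 ∧ s.2.2 γ = 0 := by
  classical
  by_contra hcon
  push Not at hcon
  let T : S → Set ℝ := fun s => ((s.1.1.2.support ∪ s.1.2.2.support : Finset ℝ) : Set ℝ)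
  have hU : (⋃ s, T s) = Set.univ := by
    apply eq_univ_of_forall
    intro γ
    obtain ⟨s, hs, h⟩ := hcon γ
    refine mem_iUnion.2 ⟨⟨s, hs⟩, ?_⟩
    simp only [T, Finset.coe_union, mem_union, Finset.mem_coe, Finsupp.mem_support_iff]
    tauto
  have h1 : #(⋃ s, T s) ≤ #S * ℵ₀ := by
    refine (mk_iUnion_le_sum_mk).trans ?_
    refine (sum_le_sum _ (fun _ => ℵ₀) (fun s => ?_)).trans (by simp)
    exact (Finset.countable_toSet _).le_aleph0
  rw [hU, mk_univ, mk_real] at h1
  exact absurd h1 (not_le.2 (mul_lt_of_lt aleph0_le_continuum hS aleph0_lt_continuum))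

end Pool.Agent.MP_23f360_gt
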